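import Pool.Agent.Helper27.SPR.EN1

/-!
Row EN: the test function of the annulus.
-/

namespace SPR

noncomputable section

open Filter Topology

namespace EN

/-- clamping to `[0, 1]` -/
def cl (x : ℝ) : ℝ := max 0 (min 1 x)

lemma cl_nonneg (x : ℝ) : 0 ≤ cl x := le_max_left _ _

lemma cl_le_one (x : ℝ) : cl x ≤ 1 := max_le zero_le_one (min_le_left _ _)

lemma cl_eq_one {x : ℝ} (h : 1 ≤ x) : cl x = 1 := by
  unfold cl; rw [min_eq_left h]; exact max_eq_right zero_le_one

lemma cl_eq_zero {x : ℝ} (h : x ≤ 0) : cl x = 0 := by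
  unfold cl; exact max_eq_left ((min_le_right _ _).trans h)

lemma cl_lip (x y : ℝ) : |cl x - cl y| ≤ |x - y| := by
  unfold cl
  refine (abs_max_sub_max_le_max _ _ _ _).trans ?_
  refine max_le (by simp) ?_
  refine (abs_min_sub_min_le_max _ _ _ _).trans ?_
  exact max_le (by simp) le_rfl

/-- outer function -/
def uo (k : ℕ) (ρ F : ℝ) : ℝ := cl (1 - Real.log (F / ρ) / (k * Real.log 2))

/-- inner function -/
def ui (k : ℕ) (ρ G : ℝ) : ℝ := cl (Real.log (2 ^ k * G / ρ) / (k * Real.log 2))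

lemma L_pos {k : ℕ} (hk : 1 ≤ k) : 0 < (k : ℝ) * Real.log 2 := by
  have : (0 : ℝ) < k := by exact_mod_cast hk
  have := Real.log_pos (by norm_num : (1 : ℝ) < 2)
  positivity

lemma uo_lip {k : ℕ} (hk : 1 ≤ k) {ρ F F' : ℝ} (hρ : 0 < ρ) (hF : 0 < F) (hF' : 0 < F') :
    |uo k ρ F - uo k ρ F'| ≤ |Real.log F' - Real.log F| / (k * Real.log 2) := by
  have hL := L_pos hk
  refine (cl_lip _ _).trans ?_
  rw [Real.log_div hF.ne' hρ.ne', Real.log_div hF'.ne' hρ.ne']
  have : 1 - (Real.log F - Real.log ρ) / (k * Real.log 2) -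
      (1 - (Real.log F' - Real.log ρ) / (k * Real.log 2)) =
      (Real.log F' - Real.log F) / (k * Real.log 2) := by
    field_simp; ring
  rw [this, abs_div, abs_of_pos hL]

lemma ui_lip {k : ℕ} (hk : 1 ≤ k) {ρ F F' : ℝ} (hρ : 0 < ρ) (hF : 0 < F) (hF' : 0 < F') :
    |ui k ρ F - ui k ρ F'| ≤ |Real.log F' - Real.log F| / (k * Real.log 2) := by
  have hL := L_pos hk
  refine (cl_lip _ _).trans ?_
  have h2 : (0 : ℝ) < 2 ^ k := by positivity
  rw [Real.log_div (by positivity) hρ.ne', Real.log_div (by positivity) hρ.ne',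
    Real.log_mul h2.ne' hF.ne', Real.log_mul h2.ne' hF'.ne', ← sub_div, abs_div, abs_of_pos hL,
    abs_sub_comm]
  apply le_of_eq
  congr 2
  ring

lemma uo_zero {k : ℕ} (hk : 1 ≤ k) {ρ F : ℝ} (hρ : 0 < ρ) (h : 2 ^ k * ρ ≤ F) : uo k ρ F = 0 := by
  have hL := L_pos hk
  apply cl_eq_zero
  have h1 : (2 : ℝ) ^ k ≤ F / ρ := by rwa [le_div_iff₀ hρ]
  have h2 : (k : ℝ) * Real.log 2 ≤ Real.log (F / ρ) := by
    rw [← Real.log_pow]
    exact Real.log_le_log (by positivity) h1
  have h3 : 1 ≤ Real.log (F / ρ) / (k * Real.log 2) := by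
    rw [le_div_iff₀ hL]; linarith
  linarith

lemma uo_one {k : ℕ} {ρ : ℝ} (hρ : 0 < ρ) : uo k ρ ρ = 1 := by
  apply cl_eq_one
  rw [div_self hρ.ne']; simp

lemma ui_zero {k : ℕ} (hk : 1 ≤ k) {ρ G : ℝ} (hρ : 0 < ρ) (hG : 0 < G) (h : 2 ^ k * G ≤ ρ) :
    ui k ρ G = 0 := by
  have hL := L_pos hk
  apply cl_eq_zero
  apply div_nonpos_of_nonpos_of_nonneg _ hL.le
  apply Real.log_nonpos (by positivity)
  rw [div_le_one hρ]; exact h

lemma ui_one {k : ℕ} (hk : 1 ≤ k) {ρ G : ℝ} (hρ : 0 < ρ) (h : ρ ≤ G) :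
    ui k ρ G = 1 := by
  have hL := L_pos hk
  apply cl_eq_one
  rw [le_div_iff₀ hL, one_mul, ← Real.log_pow]
  apply Real.log_le_log (by positivity)
  rw [le_div_iff₀ hρ]
  exact mul_le_mul_of_nonneg_left h (by positivity)

section

variable {K : ℝ} {V : Type} {c : V → V → ℕ} (M : DiscModel K c)

/-- the formula -/
def ph (k : ℕ) (o : Fin M.N) (p : ℂ) (d : Fin M.N) : ℝ :=
  min (uo k (M.rad o) (fd M.ctr M.rad (M.ctr o) d)) (ui k (M.rad o) (fd M.ctr M.rad p d))

open Classical in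
/-- the test function -/
def uu (k : ℕ) (o : Fin M.N) (p : ℂ) (d : Fin M.N) : ℝ :=
  if M.InE k o p d then ph M k o p d else 0

lemma rad_le_fd (z : ℂ) (d : Fin M.N) : M.rad d ≤ fd M.ctr M.rad z d := by
  unfold fd; linarith [dist_nonneg (x := M.ctr d) (y := z)]

lemma fd_pos (z : ℂ) (d : Fin M.N) : 0 < fd M.ctr M.rad z d :=
  (M.rad_pos d).trans_le (rad_le_fd M z d)

lemma rho_le_fd (o d : Fin M.N) : M.rad o ≤ fd M.ctr M.rad (M.ctr o) d := by
  by_cases h : d = o
  · rw [h]; exact rad_le_fd M _ _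
  · have := M.disj d o h
    have := M.rad_pos d
    unfold fd; linarith

lemma uu_nonneg (k : ℕ) (o : Fin M.N) (p : ℂ) (d : Fin M.N) : 0 ≤ uu M k o p d := by
  unfold uu
  split_ifs
  · exact le_min (cl_nonneg _) (cl_nonneg _)
  · exact le_rfl

lemma uu_le_one (k : ℕ) (o : Fin M.N) (p : ℂ) (d : Fin M.N) : uu M k o p d ≤ 1 := by
  unfold uu
  split_ifs
  · exact (min_le_left _ _).trans (cl_le_one _)
  · exact zero_le_one

lemma reg_self {k : ℕ} (hk : 1 ≤ k) (o : Fin M.N) (p : ℂ) : M.Reg k o p o := by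
  have hρ := M.rad_pos o
  have h2 : (2 : ℝ) ≤ 2 ^ k := by
    calc (2 : ℝ) = 2 ^ 1 := by norm_num
      _ ≤ 2 ^ k := pow_le_pow_right₀ (by norm_num) hk
  constructor
  · unfold fd
    rw [dist_self, zero_add]
    nlinarith
  · have := rad_le_fd M p o
    have h3 := fd_pos M p o
    nlinarith

lemma inE_self {k : ℕ} (hk : 1 ≤ k) (o : Fin M.N) (p : ℂ) : M.InE k o p o := by
  refine ⟨SimpleGraph.Walk.nil, ?_⟩
  intro a ha
  simp only [SimpleGraph.Walk.support_nil, List.mem_singleton] at ha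
  rw [ha]; exact reg_self M hk o p

lemma uu_self {k : ℕ} (hk : 1 ≤ k) (o : Fin M.N) (p : ℂ) : uu M k o p o = 1 := by
  have hρ := M.rad_pos o
  unfold uu
  rw [if_pos (inE_self M hk o p)]
  unfold ph
  have h1 : fd M.ctr M.rad (M.ctr o) o = M.rad o := by unfold fd; rw [dist_self, zero_add]
  rw [h1, uo_one hρ, ui_one hk hρ (rad_le_fd M p o), min_self]

lemma reg_of_inE {k : ℕ} {o : Fin M.N} {p : ℂ} {d : Fin M.N} (h : M.InE k o p d) :
    M.Reg k o p d := by
  obtain ⟨w, hw⟩ := h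
  exact hw d w.end_mem_support

lemma inE_extend {k : ℕ} {o : Fin M.N} {p : ℂ} {a b : Fin M.N} (h : M.InE k o p a)
    (hab : M.TG.Adj a b) (hb : M.Reg k o p b) : M.InE k o p b := by
  obtain ⟨w, hw⟩ := h
  refine ⟨w.concat hab, ?_⟩
  intro x hx
  rw [SimpleGraph.Walk.support_concat] at hx
  simp only [List.mem_append, List.mem_singleton] at hx
  rcases hx with hx | hx
  · exact hw x hx
  · rw [hx]; exact hb

lemma ph_zero {k : ℕ} (hk : 1 ≤ k) {o : Fin M.N} {p : ℂ} {b : Fin M.N} (hb : ¬ M.Reg k o p b) :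
    ph M k o p b = 0 := by
  have hρ := M.rad_pos o
  unfold DiscModel.Reg at hb
  rw [not_and_or, not_le, not_lt] at hb
  unfold ph
  rcases hb with hb | hb
  · rw [uo_zero hk hρ hb.le]
    exact min_eq_left (cl_nonneg _)
  · rw [ui_zero hk hρ (fd_pos M p b) hb]
    exact min_eq_right (cl_nonneg _)

lemma uu_eq_ph_aux {k : ℕ} (hk : 1 ≤ k) {o : Fin M.N} {p : ℂ} {a b : Fin M.N}
    (hab : M.TG.Adj a b) (h : M.InE k o p a) :
    uu M k o p a = ph M k o p a ∧ uu M k o p b = ph M k o p b := by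
  classical
  constructor
  · unfold uu; rw [if_pos h]
  · by_cases hb : M.InE k o p b
    · unfold uu; rw [if_pos hb]
    · have : ¬ M.Reg k o p b := fun h' => hb (inE_extend M h hab h')
      rw [ph_zero M hk this]
      unfold uu; rw [if_neg hb]

lemma uu_eq_ph {k : ℕ} (hk : 1 ≤ k) {o : Fin M.N} {p : ℂ} {a b : Fin M.N}
    (hab : M.TG.Adj a b) (h : M.InE k o p a ∨ M.InE k o p b) :
    uu M k o p a = ph M k o p a ∧ uu M k o p b = ph M k o p b := by
  rcases h with h | h
  · exact uu_eq_ph_aux M hk hab h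
  · exact (uu_eq_ph_aux M hk hab.symm h).symm

open Classical in
/-- the weight -/
def Psi (k n0 : ℕ) (o : Fin M.N) (p : ℂ) (a : Fin M.N) : ℝ :=
  (if M.rad o ≤ fd M.ctr M.rad (M.ctr o) a ∧
      fd M.ctr M.rad (M.ctr o) a < 2 ^ (k + 1 + n0) * M.rad o
    then (M.rad a / fd M.ctr M.rad (M.ctr o) a) ^ 2 else 0) +
  (if M.rad o / 2 ^ (k + n0) ≤ fd M.ctr M.rad p a ∧
      fd M.ctr M.rad p a < 2 ^ (k + 2 * n0) * (M.rad o / 2 ^ (k + n0))
    then (M.rad a / fd M.ctr M.rad p a) ^ 2 else 0)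

lemma ratio_sq (z : ℂ) (a : Fin M.N) : (M.rad a / fd M.ctr M.rad z a) ^ 2 ≤ 1 := by
  have h1 := rad_le_fd M z a
  have h2 := fd_pos M z a
  have h3 := M.rad_pos a
  have h4 : M.rad a / fd M.ctr M.rad z a ≤ 1 := by rw [div_le_one h2]; exact h1
  have h5 : 0 ≤ M.rad a / fd M.ctr M.rad z a := by positivity
  nlinarith

lemma Psi_nonneg (k n0 : ℕ) (o : Fin M.N) (p : ℂ) (a : Fin M.N) : 0 ≤ Psi M k n0 o p a := by
  unfold Psi
  refine add_nonneg ?_ ?_
  · split_ifs
    · positivity
    · exact le_rfl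
  · split_ifs
    · positivity
    · exact le_rfl

lemma Psi_le (k n0 : ℕ) (o : Fin M.N) (p : ℂ) (a : Fin M.N) : Psi M k n0 o p a ≤ 2 := by
  unfold Psi
  have h1 := ratio_sq M (M.ctr o) a
  have h2 := ratio_sq M p a
  split_ifs <;> linarith

lemma Psi_sum (hR : ST_RSUM) (k n0 : ℕ) (o : Fin M.N) (p : ℂ) :
    ∑ a, Psi M k n0 o p a ≤ 4 * (k + 1 + n0) + 4 * (k + 2 * n0) := by
  classical
  have hρ := M.rad_pos o
  have h1 := hR M.N M.ctr M.rad (M.ctr o) (M.rad o) (k + 1 + n0) M.rad_pos M.disj hρ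
  have h2 := hR M.N M.ctr M.rad p (M.rad o / 2 ^ (k + n0)) (k + 2 * n0) M.rad_pos M.disj
    (by positivity)
  rw [Finset.sum_filter] at h1 h2
  unfold Psi
  rw [Finset.sum_add_distrib]
  push_cast at h1 h2
  refine add_le_add ?_ ?_
  · convert h1 using 3
  · convert h2 using 3

variable {M}

lemma fd_comp (hE : ST_EDGE) (hK : 1 ≤ K) {a b : Fin M.N} (hab : M.TG.Adj a b) (z : ℂ) :
    fd M.ctr M.rad z a ≤ (1 + 2 * K) * fd M.ctr M.rad z b := by
  have h1 := hE K V c M hK a b hab
  have h2 := hE K V c M hK b a hab.symm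
  have h3 := (h2.2.2 z).1
  have h4 := rad_le_fd M z b
  have h5 := h1.1
  nlinarith

lemma diff_sq (hE : ST_EDGE) (hK : 1 ≤ K) {k : ℕ} (hk : 1 ≤ k) {n0 : ℕ}
    (hn0 : 1 + 2 * K ≤ 2 ^ n0) {o : Fin M.N} {p : ℂ} {a b : Fin M.N}
    (hab : M.TG.Adj a b) (h : M.InE k o p a ∨ M.InE k o p b) :
    (uu M k o p a - uu M k o p b) ^ 2 ≤
      (6 * K / (k * Real.log 2)) ^ 2 * Psi M k n0 o p a := by
  classical
  have hρ := M.rad_pos o
  have hL := L_pos hk
  obtain ⟨e1, e2⟩ := uu_eq_ph M hk hab h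
  rw [e1, e2]
  set Fa := fd M.ctr M.rad (M.ctr o) a with hFa
  set Fb := fd M.ctr M.rad (M.ctr o) b with hFb
  set Ga := fd M.ctr M.rad p a with hGa
  set Gb := fd M.ctr M.rad p b with hGb
  have hFa0 : 0 < Fa := fd_pos M _ _
  have hFb0 : 0 < Fb := fd_pos M _ _
  have hGa0 : 0 < Ga := fd_pos M _ _
  have hGb0 : 0 < Gb := fd_pos M _ _
  have hed := (hE K V c M hK a b hab).2.2
  have hlo := (hed (M.ctr o)).2
  have hli := (hed p).2
  have hFab := fd_comp hE hK hab (M.ctr o)
  have hGab := fd_comp hE hK hab p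
  have hGba := fd_comp hE hK hab.symm p
  rw [← hFa, ← hFb] at hlo hFab
  rw [← hGa, ← hGb] at hli hGab hGba
  set X := |uo k (M.rad o) Fa - uo k (M.rad o) Fb| with hX
  set Y := |ui k (M.rad o) Ga - ui k (M.rad o) Gb| with hY
  have hX0 : 0 ≤ X := abs_nonneg _
  have hY0 : 0 ≤ Y := abs_nonneg _
  have h1 : |ph M k o p a - ph M k o p b| ≤ max X Y := abs_min_sub_min_le_max _ _ _ _
  have h2 : (ph M k o p a - ph M k o p b) ^ 2 ≤ X ^ 2 + Y ^ 2 := by
    rw [← sq_abs]
    have h3 : |ph M k o p a - ph M k o p b| ^ 2 ≤ (max X Y) ^ 2 :=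
      pow_le_pow_left₀ (abs_nonneg _) h1 2
    rcases max_cases X Y with ⟨h4, _⟩ | ⟨h4, _⟩
    · rw [h4] at h3; nlinarith [sq_nonneg Y]
    · rw [h4] at h3; nlinarith [sq_nonneg X]
  refine h2.trans ?_
  unfold Psi
  rw [mul_add]
  have hreg : (Fa ≤ 2 ^ k * M.rad o ∨ Fb ≤ 2 ^ k * M.rad o) ∧
      (M.rad o < 2 ^ k * Ga ∨ M.rad o < 2 ^ k * Gb) := by
    rcases h with h | h
    · have := reg_of_inE M h
      exact ⟨Or.inl this.1, Or.inl this.2⟩
    · have := reg_of_inE M h
      exact ⟨Or.inr this.1, Or.inr this.2⟩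
  have hP : (1 : ℝ) ≤ 2 ^ n0 := by linarith
  have hk2 : (0 : ℝ) < 2 ^ k := by positivity
  have hra := M.rad_pos a
  refine add_le_add ?_ ?_
  · -- outer part
    have hc1 : M.rad o ≤ Fa := rho_le_fd M o a
    have hc2 : Fa < 2 ^ (k + 1 + n0) * M.rad o := by
      have h3 : Fa ≤ 2 ^ n0 * (2 ^ k * M.rad o) := by
        rcases hreg.1 with h4 | h4
        · have : 0 < 2 ^ k * M.rad o := by positivity
          nlinarith
        · calc Fa ≤ (1 + 2 * K) * Fb := hFab
            _ ≤ 2 ^ n0 * Fb := mul_le_mul_of_nonneg_right hn0 hFb0.le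
            _ ≤ 2 ^ n0 * (2 ^ k * M.rad o) := mul_le_mul_of_nonneg_left h4 (by positivity)
      have h4 : (2 : ℝ) ^ (k + 1 + n0) * M.rad o = 2 * (2 ^ n0 * (2 ^ k * M.rad o)) := by
        rw [pow_add, pow_add]; ring
      rw [h4]
      have : 0 < (2 : ℝ) ^ n0 * (2 ^ k * M.rad o) := by positivity
      linarith
    rw [if_pos ⟨hc1, hc2⟩]
    have h3 : X ≤ 6 * K / (k * Real.log 2) * (M.rad a / Fa) := by
      calc X ≤ |Real.log Fb - Real.log Fa| / (k * Real.log 2) := uo_lip hk hρ hFa0 hFb0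
        _ ≤ 6 * K * (M.rad a / Fa) / (k * Real.log 2) := by
          apply div_le_div_of_nonneg_right hlo hL.le
        _ = _ := by ring
    calc X ^ 2 ≤ (6 * K / (k * Real.log 2) * (M.rad a / Fa)) ^ 2 := pow_le_pow_left₀ hX0 h3 2
      _ = _ := by rw [mul_pow]
  · -- inner part
    by_cases hbig : M.rad o ≤ Ga ∧ M.rad o ≤ Gb
    · have hY1 : Y = 0 := by
        rw [hY, ui_one hk hρ hbig.1, ui_one hk hρ hbig.2]; simp
      rw [hY1]
      have : 0 ≤ (6 * K / (k * Real.log 2)) ^ 2 *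
        (if M.rad o / 2 ^ (k + n0) ≤ Ga ∧ Ga < 2 ^ (k + 2 * n0) * (M.rad o / 2 ^ (k + n0))
          then (M.rad a / Ga) ^ 2 else 0) := by
        apply mul_nonneg (sq_nonneg _)
        split_ifs
        · positivity
        · exact le_rfl
      simpa using this
    · have hc2' : Ga < 2 ^ n0 * M.rad o := by
        rw [not_and_or, not_le, not_le] at hbig
        rcases hbig with h4 | h4
        · nlinarith
        · calc Ga ≤ (1 + 2 * K) * Gb := hGab
            _ ≤ 2 ^ n0 * Gb := mul_le_mul_of_nonneg_right hn0 hGb0.le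
            _ < 2 ^ n0 * M.rad o := mul_lt_mul_of_pos_left h4 (by positivity)
      have hc2 : Ga < 2 ^ (k + 2 * n0) * (M.rad o / 2 ^ (k + n0)) := by
        have h4 : (2 : ℝ) ^ (k + 2 * n0) * (M.rad o / 2 ^ (k + n0)) = 2 ^ n0 * M.rad o := by
          have h5 : (2 : ℝ) ^ (k + 2 * n0) = 2 ^ (k + n0) * 2 ^ n0 := by
            rw [← pow_add]; congr 1; ring
          rw [h5]; field_simp
        rw [h4]; exact hc2'
      have hc1 : M.rad o / 2 ^ (k + n0) ≤ Ga := by
        rw [div_le_iff₀ (by positivity), pow_add]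
        rcases hreg.2 with h4 | h4
        · calc M.rad o ≤ 2 ^ k * Ga := h4.le
            _ = Ga * (2 ^ k * 1) := by ring
            _ ≤ Ga * (2 ^ k * 2 ^ n0) := by
              apply mul_le_mul_of_nonneg_left _ hGa0.le
              exact mul_le_mul_of_nonneg_left hP hk2.le
        · calc M.rad o ≤ 2 ^ k * Gb := h4.le
            _ ≤ 2 ^ k * ((1 + 2 * K) * Ga) := mul_le_mul_of_nonneg_left hGba hk2.le
            _ ≤ 2 ^ k * (2 ^ n0 * Ga) := by
              apply mul_le_mul_of_nonneg_left _ hk2.le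
              exact mul_le_mul_of_nonneg_right hn0 hGa0.le
            _ = Ga * (2 ^ k * 2 ^ n0) := by ring
      rw [if_pos ⟨hc1, hc2⟩]
      have h3 : Y ≤ 6 * K / (k * Real.log 2) * (M.rad a / Ga) := by
        calc Y ≤ |Real.log Gb - Real.log Ga| / (k * Real.log 2) := ui_lip hk hρ hGa0 hGb0
          _ ≤ 6 * K * (M.rad a / Ga) / (k * Real.log 2) := by
            apply div_le_div_of_nonneg_right hli hL.le
          _ = _ := by ring
      calc Y ^ 2 ≤ (6 * K / (k * Real.log 2) * (M.rad a / Ga)) ^ 2 := pow_le_pow_left₀ hY0 h3 2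
        _ = _ := by rw [mul_pow]

lemma adj_of_e {d d' : Fin M.N} (h : M.e d d' ≠ 0) : M.TG.Adj d d' := by
  unfold DiscModel.TG
  rw [SimpleGraph.fromRel_adj]
  refine ⟨?_, Or.inl (Or.inr (Or.inr h))⟩
  rintro rfl
  have := (M.e_touch d d h).1
  rw [dist_self] at this
  linarith [M.rad_pos d]

lemma adj_par {d : Fin M.N} (h : M.depth d ≠ 0) : M.TG.Adj d (M.par d) := by
  unfold DiscModel.TG
  rw [SimpleGraph.fromRel_adj]
  refine ⟨?_, Or.inl (Or.inl ⟨h, rfl⟩)⟩
  intro h'
  have := M.depth_par d h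
  rw [← h'] at this
  omega

lemma diff_zero {k : ℕ} {o : Fin M.N} {p : ℂ} {a b : Fin M.N}
    (h : ¬ (M.InE k o p a ∨ M.InE k o p b)) : uu M k o p a - uu M k o p b = 0 := by
  classical
  rw [not_or] at h
  unfold uu
  rw [if_neg h.1, if_neg h.2, sub_zero]

lemma diff_abs (hE : ST_EDGE) (hK : 1 ≤ K) {k : ℕ} (hk : 1 ≤ k) {n0 : ℕ}
    (hn0 : 1 + 2 * K ≤ 2 ^ n0) {o : Fin M.N} {p : ℂ} {a b : Fin M.N}
    (hab : M.TG.Adj a b) :
    |uu M k o p a - uu M k o p b| ≤ 12 * K / (k * Real.log 2) := by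
  have hL := L_pos hk
  have hB : 0 ≤ 12 * K / (k * Real.log 2) := by positivity
  by_cases h : M.InE k o p a ∨ M.InE k o p b
  · have h1 := diff_sq hE hK hk hn0 hab h
    have h2 := Psi_le M k n0 o p a
    apply abs_le_of_sq_le_sq _ hB
    calc (uu M k o p a - uu M k o p b) ^ 2 ≤
        (6 * K / (k * Real.log 2)) ^ 2 * Psi M k n0 o p a := h1
      _ ≤ (6 * K / (k * Real.log 2)) ^ 2 * 4 := by
          apply mul_le_mul_of_nonneg_left (by linarith) (sq_nonneg _)
      _ = (12 * K / (k * Real.log 2)) ^ 2 := by ring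
  · rw [diff_zero h, abs_zero]; exact hB

lemma e_le_deg [Fintype V] (d : Fin M.N) : ∑ d', M.e d d' ≤ deg c (M.own d) := by
  classical
  unfold deg
  rw [finsum_eq_sum_of_fintype]
  have h1 : ∀ y, c (M.own d) y = ∑ d1 with M.own d1 = M.own d, ∑ d' with M.own d' = y, M.e d1 d' := by
    intro y
    rw [← M.e_sum]
  simp_rw [h1]
  rw [Finset.sum_comm]
  have h2 : ∀ d1, ∑ y : V, ∑ d' with M.own d' = y, M.e d1 d' = ∑ d', M.e d1 d' := fun d1 =>
    Finset.sum_fiberwise Finset.univ M.own _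
  simp_rw [h2]
  exact Finset.single_le_sum (f := fun d1 => ∑ d', M.e d1 d') (fun _ _ => Nat.zero_le _)
    (by simp)

lemma anc_card (n : ℕ) : ∀ d : Fin M.N, M.depth d = n → (anc M d).card = n + 1 := by
  induction n with
  | zero =>
    intro d hd
    have h1 := (M.depth_eq_zero d).1 hd
    have h2 : M.par d = d := by rw [h1]; exact M.par_root _
    have h3 : anc M d = {d} := by
      ext a
      simp only [anc, Finset.mem_filter, Finset.mem_univ, true_and, Finset.mem_singleton]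
      constructor
      · rintro ⟨i, hi⟩
        rw [Function.iterate_fixed h2] at hi
        exact hi.symm
      · rintro rfl
        exact ⟨0, rfl⟩
    rw [h3]; simp
  | succ n ih =>
    intro d hd
    have hd0 : M.depth d ≠ 0 := by omega
    have h1 : M.depth (M.par d) = n := by
      have := M.depth_par d hd0
      omega
    rw [anc_insert, Finset.card_insert_of_notMem (not_mem_anc_par M d hd0), ih _ h1]

lemma own_iter (i : ℕ) : ∀ d : Fin M.N, M.own (M.par^[i] d) = M.own d := by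
  induction i with
  | zero => intro d; rfl
  | succ i ih => intro d; rw [Function.iterate_succ_apply, ih, M.own_par]

lemma depth_le (d : Fin M.N) : (M.depth d : ℝ) + 1 ≤ K * (1 + deg c (M.own d)) := by
  classical
  refine le_trans ?_ (M.size (M.own d))
  have h1 := anc_card (M := M) (M.depth d) d rfl
  have h2 : anc M d ⊆ Finset.univ.filter (fun d' => M.own d' = M.own d) := by
    intro a ha
    simp only [anc, Finset.mem_filter, Finset.mem_univ, true_and] at ha ⊢
    obtain ⟨i, hi⟩ := ha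
    rw [← hi, own_iter]
  have h3 := Finset.card_le_card h2
  rw [h1] at h3
  have h4 : ((M.depth d + 1 : ℕ) : ℝ) ≤
    ((Finset.univ.filter (fun d' => M.own d' = M.own d)).card : ℝ) := by exact_mod_cast h3
  push_cast at h4
  convert h4 using 4

lemma to_root_abs (u : Fin M.N → ℝ) (B : ℝ)
    (hB : ∀ a, M.depth a ≠ 0 → |u a - u (M.par a)| ≤ B) (n : ℕ) :
    ∀ d : Fin M.N, M.depth d = n → |u d - u (M.root (M.own d))| ≤ n * B := by
  induction n with
  | zero =>
    intro d hd
    have h1 := (M.depth_eq_zero d).1 hd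
    rw [← h1]; simp
  | succ n ih =>
    intro d hd
    have hd0 : M.depth d ≠ 0 := by omega
    have h1 : M.depth (M.par d) = n := by
      have := M.depth_par d hd0
      omega
    have h2 := ih _ h1
    rw [M.own_par] at h2
    have h3 := hB d hd0
    have h4 := abs_sub_le (u d) (u (M.par d)) (u (M.root (M.own d)))
    push_cast
    linarith

lemma exists_e {x y : V} (h : c x y ≠ 0) : ∃ d d', M.own d = x ∧ M.own d' = y ∧ M.e d d' ≠ 0 := by
  classical
  rw [← M.e_sum x y] at h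
  obtain ⟨d, hd, h1⟩ := Finset.exists_ne_zero_of_sum_ne_zero h
  obtain ⟨d', hd', h2⟩ := Finset.exists_ne_zero_of_sum_ne_zero h1
  rw [Finset.mem_filter] at hd hd'
  exact ⟨d, d', hd.2, hd'.2, h2⟩

end

end EN

open EN

open Classical in
theorem st_EN : ST_RSUM → ST_EDGE → ST_LIFT → ST_EN1 → ST_EN := by
  intro hR hE _ hN K hK
  obtain ⟨C3, hC3, hN⟩ := hN K hK
  obtain ⟨n0, hn0⟩ := pow_unbounded_of_one_lt (1 + 2 * K) (by norm_num : (1 : ℝ) < 2)
  have hn0 := hn0.le
  have hlog : 0 < Real.log 2 := Real.log_pos (by norm_num)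
  set C5 : ℝ := C3 * 3 * 36 * K ^ 2 * (12 * (1 + n0)) / Real.log 2 ^ 2 + 36 * K ^ 2 / Real.log 2
    with hC5
  refine ⟨C5, by positivity, ?_⟩
  intro V _ c M w p k Δ hc hk hΔ hdeg
  have hk0 : (0 : ℝ) < k := by exact_mod_cast hk
  have hk1 : (1 : ℝ) ≤ k := by exact_mod_cast hk
  have hL := L_pos hk
  set o := M.root w with ho
  set u : Fin M.N → ℝ := uu M k o p with hu
  refine ⟨fun v => u (M.root v), fun v => ⟨uu_nonneg M _ _ _ _, uu_le_one M _ _ _ _⟩,
    uu_self M hk o p, ?_, ?_, ?_⟩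
  · intro v hv
    by_contra h
    apply hv
    simp only [hu]
    unfold uu
    rw [if_neg h]
  · -- energy
    refine (hN V c M u hc).trans ?_
    set κ : ℝ := (6 * K / (k * Real.log 2)) ^ 2 with hκ
    have hκ0 : 0 ≤ κ := sq_nonneg _
    set Ψ : Fin M.N → ℝ := Psi M k n0 o p with hΨ
    have hΨ0 : ∀ a, 0 ≤ Ψ a := Psi_nonneg M k n0 o p
    have hS := Psi_sum M hR k n0 o p
    rw [← hΨ] at hS
    have hS0 : 0 ≤ ∑ a, Ψ a := Finset.sum_nonneg fun a _ => hΨ0 a
    have hΔ0 : 0 ≤ Δ := by linarith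
    -- e part
    have h1 : ∀ d d', (M.e d d' : ℝ) * (u d - u d') ^ 2 ≤
        (if M.InE k o p d then (M.e d d' : ℝ) * (κ * Ψ d) else 0) +
        (if M.InE k o p d' then (M.e d d' : ℝ) * (κ * Ψ d') else 0) := by
      intro d d'
      have hnn : ∀ x, 0 ≤ (if M.InE k o p x then (M.e d d' : ℝ) * (κ * Ψ x) else 0) := by
        intro x
        split_ifs
        · have := hΨ0 x; positivity
        · exact le_rfl
      by_cases he : M.e d d' = 0
      · rw [he] ; simp
      · have hadj := adj_of_e he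
        by_cases h2 : M.InE k o p d
        · have h3 := diff_sq hE hK hk hn0 hadj (Or.inl h2) (p := p) (o := o)
          have h4 := hnn d'
          rw [if_pos h2]
          have h5 : (M.e d d' : ℝ) * (u d - u d') ^ 2 ≤ (M.e d d' : ℝ) * (κ * Ψ d) :=
            mul_le_mul_of_nonneg_left h3 (Nat.cast_nonneg _)
          linarith
        · by_cases h2' : M.InE k o p d'
          · have h3 := diff_sq hE hK hk hn0 hadj.symm (Or.inl h2') (p := p) (o := o)
            have h4 := hnn d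
            rw [if_pos h2']
            have h5 : (M.e d d' : ℝ) * (u d - u d') ^ 2 ≤ (M.e d d' : ℝ) * (κ * Ψ d') := by
              apply mul_le_mul_of_nonneg_left _ (Nat.cast_nonneg _)
              rw [← neg_sub, neg_sq]
              exact h3
            linarith
          · have h3 : u d - u d' = 0 := diff_zero (by tauto)
            rw [h3]
            have := hnn d
            have := hnn d'
            simp only [ne_eq, OfNat.ofNat_ne_zero, not_false_eq_true, zero_pow, mul_zero]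
            linarith
    have h2 : ∀ d, ∑ d', (if M.InE k o p d then (M.e d d' : ℝ) * (κ * Ψ d) else 0) ≤
        Δ * (κ * Ψ d) := by
      intro d
      have hp : 0 ≤ κ * Ψ d := mul_nonneg hκ0 (hΨ0 d)
      by_cases h3 : M.InE k o p d
      · simp only [h3, if_true]
        rw [← Finset.sum_mul]
        apply mul_le_mul_of_nonneg_right _ hp
        have h4 := e_le_deg (M := M) d
        have h5 : ((∑ d', M.e d d' : ℕ) : ℝ) ≤ deg c (M.own d) := by exact_mod_cast h4
        push_cast at h5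
        exact h5.trans (hdeg d h3)
      · simp only [h3, if_false, Finset.sum_const_zero]
        positivity
    have h3 : ∑ d, ∑ d', (M.e d d' : ℝ) * (u d - u d') ^ 2 ≤ 2 * (Δ * κ * ∑ a, Ψ a) := by
      calc ∑ d, ∑ d', (M.e d d' : ℝ) * (u d - u d') ^ 2
          ≤ ∑ d, ∑ d', ((if M.InE k o p d then (M.e d d' : ℝ) * (κ * Ψ d) else 0) +
            (if M.InE k o p d' then (M.e d d' : ℝ) * (κ * Ψ d') else 0)) :=
            Finset.sum_le_sum fun d _ => Finset.sum_le_sum fun d' _ => h1 d d'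
        _ = ∑ d, ∑ d', (if M.InE k o p d then (M.e d d' : ℝ) * (κ * Ψ d) else 0) +
            ∑ d, ∑ d', (if M.InE k o p d' then (M.e d d' : ℝ) * (κ * Ψ d') else 0) := by
            simp only [Finset.sum_add_distrib]
        _ = 2 * ∑ d, ∑ d', (if M.InE k o p d then (M.e d d' : ℝ) * (κ * Ψ d) else 0) := by
            have : ∑ d, ∑ d', (if M.InE k o p d' then (M.e d d' : ℝ) * (κ * Ψ d') else 0) =
                ∑ d, ∑ d', (if M.InE k o p d then (M.e d d' : ℝ) * (κ * Ψ d) else 0) := by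
              rw [Finset.sum_comm]
              refine Finset.sum_congr rfl fun d _ => Finset.sum_congr rfl fun d' _ => ?_
              rw [M.e_symm]
            rw [this]; ring
        _ ≤ 2 * ∑ d, Δ * (κ * Ψ d) := by
            apply mul_le_mul_of_nonneg_left _ (by norm_num)
            exact Finset.sum_le_sum fun d _ => h2 d
        _ = _ := by
            rw [← Finset.mul_sum, ← Finset.mul_sum]; ring
    have h4 : ∑ d, (deg c (M.own d) : ℝ) * (u d - u (M.par d)) ^ 2 ≤ Δ * κ * ∑ a, Ψ a := by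
      calc ∑ d, (deg c (M.own d) : ℝ) * (u d - u (M.par d)) ^ 2 ≤ ∑ d, Δ * (κ * Ψ d) := by
            refine Finset.sum_le_sum fun d _ => ?_
            have hp : 0 ≤ κ * Ψ d := mul_nonneg hκ0 (hΨ0 d)
            by_cases hd : M.depth d = 0
            · have h5 := (M.depth_eq_zero d).1 hd
              have h6 : M.par d = d := by rw [h5]; exact M.par_root _
              rw [h6, sub_self]
              simp only [ne_eq, OfNat.ofNat_ne_zero, not_false_eq_true, zero_pow, mul_zero]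
              positivity
            · have hadj := adj_par hd
              by_cases h5 : M.InE k o p d ∨ M.InE k o p (M.par d)
              · have h6 := diff_sq hE hK hk hn0 hadj h5
                have h7 : (deg c (M.own d) : ℝ) ≤ Δ := by
                  rcases h5 with h5 | h5
                  · exact hdeg d h5
                  · have := hdeg _ h5
                    rwa [M.own_par] at this
                calc (deg c (M.own d) : ℝ) * (u d - u (M.par d)) ^ 2 ≤
                    (deg c (M.own d) : ℝ) * (κ * Ψ d) :=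
                      mul_le_mul_of_nonneg_left h6 (Nat.cast_nonneg _)
                  _ ≤ Δ * (κ * Ψ d) := mul_le_mul_of_nonneg_right h7 hp
              · have h6 : u d - u (M.par d) = 0 := diff_zero h5
                rw [h6]
                simp only [ne_eq, OfNat.ofNat_ne_zero, not_false_eq_true, zero_pow, mul_zero]
                positivity
        _ = _ := by rw [← Finset.mul_sum, ← Finset.mul_sum]; ring
    have hS' : ∑ a, Ψ a ≤ 12 * (1 + n0) * k := by
      refine hS.trans ?_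
      have : (0 : ℝ) ≤ n0 := Nat.cast_nonneg _
      nlinarith
    calc C3 * ((∑ d, ∑ d', (M.e d d' : ℝ) * (u d - u d') ^ 2) +
        ∑ d, (deg c (M.own d) : ℝ) * (u d - u (M.par d)) ^ 2)
        ≤ C3 * (2 * (Δ * κ * ∑ a, Ψ a) + Δ * κ * ∑ a, Ψ a) := by
          apply mul_le_mul_of_nonneg_left _ hC3.le
          linarith
      _ = C3 * 3 * (Δ * κ) * ∑ a, Ψ a := by ring
      _ ≤ C3 * 3 * (Δ * κ) * (12 * (1 + n0) * k) := by
          apply mul_le_mul_of_nonneg_left hS' (by positivity)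
      _ = (C3 * 3 * 36 * K ^ 2 * (12 * (1 + n0)) / Real.log 2 ^ 2) * Δ / k := by
          rw [hκ]; field_simp; ring
      _ ≤ C5 * Δ / k := by
          apply div_le_div_of_nonneg_right _ hk0.le
          apply mul_le_mul_of_nonneg_right _ hΔ0
          rw [hC5]
          have : 0 ≤ 36 * K ^ 2 / Real.log 2 := by positivity
          linarith
  · -- gradient
    intro x y hxy
    obtain ⟨d, d', hd, hd', he⟩ := exists_e (M := M) hxy
    set B : ℝ := 12 * K / (k * Real.log 2) with hB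
    have hB0 : 0 ≤ B := by positivity
    have hstep : ∀ a, M.depth a ≠ 0 → |u a - u (M.par a)| ≤ B := fun a ha =>
      diff_abs hE hK hk hn0 (adj_par ha)
    have h1 := to_root_abs u B hstep _ d rfl
    have h2 := to_root_abs u B hstep _ d' rfl
    have h3 : |u d - u d'| ≤ B := diff_abs hE hK hk hn0 (adj_of_e he)
    have h4 := depth_le (M := M) d
    have h5 := depth_le (M := M) d'
    rw [hd] at h1 h4
    rw [hd'] at h2 h5
    have h6 : |u (M.root x) - u (M.root y)| ≤ (M.depth d * B) + B + M.depth d' * B := by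
      have e1 := abs_sub_le (u (M.root x)) (u d) (u (M.root y))
      have e2 := abs_sub_le (u d) (u d') (u (M.root y))
      rw [abs_sub_comm] at h1
      linarith
    have hdx : (0 : ℝ) ≤ deg c x := Nat.cast_nonneg _
    have hdy : (0 : ℝ) ≤ deg c y := Nat.cast_nonneg _
    calc |u (M.root x) - u (M.root y)| ≤ (M.depth d * B) + B + M.depth d' * B := h6
      _ = (M.depth d + 1 + M.depth d') * B := by ring
      _ ≤ (3 * K * (1 + deg c x + deg c y)) * B := by
          apply mul_le_mul_of_nonneg_right _ hB0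
          nlinarith
      _ = (36 * K ^ 2 / Real.log 2) * (1 + deg c x + deg c y) / k := by
          rw [hB]; field_simp; ring
      _ ≤ C5 * (1 + deg c x + deg c y) / k := by
          apply div_le_div_of_nonneg_right _ hk0.le
          apply mul_le_mul_of_nonneg_right _ (by positivity)
          rw [hC5]
          have : 0 ≤ C3 * 3 * 36 * K ^ 2 * (12 * (1 + n0)) / Real.log 2 ^ 2 := by positivity
          linarith

end

end SPR
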