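import Pool.Agent.Helper98.SPR.Stmts

/-!
Row EN1: comparison of energies (balanced trees).
-/

namespace SPR

noncomputable section

open Filter Topology

open Classical in
/-- ancestors of a disc -/
def anc {K : ℝ} {V : Type} {c : V → V → ℕ} (M : DiscModel K c) (d : Fin M.N) : Finset (Fin M.N) :=
  Finset.univ.filter (fun a => ∃ i, M.par^[i] d = a)

lemma depth_par_le {K : ℝ} {V : Type} {c : V → V → ℕ} (M : DiscModel K c) (d : Fin M.N) :
    M.depth (M.par d) ≤ M.depth d := by
  by_cases h : M.depth d = 0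
  · have h1 := (M.depth_eq_zero d).1 h
    have h2 : M.par d = d := by
      rw [h1]; exact M.par_root _
    rw [h2]
  · have := M.depth_par d h
    omega

lemma depth_iter_le {K : ℝ} {V : Type} {c : V → V → ℕ} (M : DiscModel K c) (i : ℕ) :
    ∀ d : Fin M.N, M.depth (M.par^[i] d) ≤ M.depth d := by
  induction i with
  | zero => intro d; simp
  | succ i ih =>
    intro d
    rw [Function.iterate_succ_apply]
    exact (ih _).trans (depth_par_le M d)

lemma anc_insert {K : ℝ} {V : Type} {c : V → V → ℕ} (M : DiscModel K c) (d : Fin M.N) :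
    anc M d = insert d (anc M (M.par d)) := by
  classical
  ext a
  simp only [anc, Finset.mem_filter, Finset.mem_univ, true_and, Finset.mem_insert]
  constructor
  · rintro ⟨i, hi⟩
    cases i with
    | zero => left; simpa using hi.symm
    | succ i => right; exact ⟨i, by rwa [Function.iterate_succ_apply] at hi⟩
  · rintro (h | ⟨i, hi⟩)
    · exact ⟨0, by simp [h]⟩
    · exact ⟨i + 1, by rwa [Function.iterate_succ_apply]⟩

lemma not_mem_anc_par {K : ℝ} {V : Type} {c : V → V → ℕ} (M : DiscModel K c) (d : Fin M.N)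
    (h : M.depth d ≠ 0) : d ∉ anc M (M.par d) := by
  classical
  simp only [anc, Finset.mem_filter, Finset.mem_univ, true_and, not_exists]
  intro i hi
  have h1 := depth_iter_le M i (M.par d)
  rw [hi] at h1
  have := M.depth_par d h
  omega

lemma cs_step (x y S n : ℝ) (hn : 1 ≤ n) (hy : y ^ 2 ≤ (2 - 1 / n) * S) :
    (x + y) ^ 2 ≤ (2 - 1 / (n + 1)) * (S + (n + 1) ^ 2 * x ^ 2) := by
  have hn0 : (0 : ℝ) < n := by linarith
  have ha : (1 : ℝ) ≤ 2 - 1 / n := by
    have : 1 / n ≤ 1 := by rw [div_le_one hn0]; exact hn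
    linarith
  set α : ℝ := 2 - 1 / n with hα
  set β : ℝ := 1 / (n + 1) ^ 2 with hβ
  have hβ0 : 0 < β := by positivity
  have hα0 : 0 < α := by linarith
  have hS : 0 ≤ S := by
    by_contra hS
    push Not at hS
    have : α * S < 0 := mul_neg_of_pos_of_neg hα0 hS
    nlinarith [sq_nonneg y]
  have hab : α + β ≤ 2 - 1 / (n + 1) := by
    have : 1 / (n + 1) + 1 / (n + 1) ^ 2 ≤ 1 / n := by
      rw [div_add_div _ _ (by positivity) (by positivity), div_le_div_iff₀ (by positivity) hn0]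
      nlinarith
    linarith
  have h1 : y ^ 2 / α ≤ S := by
    rw [div_le_iff₀ hα0]; linarith
  have h2 : (x + y) ^ 2 ≤ (α + β) * (y ^ 2 / α + x ^ 2 / β) := by
    have : (α + β) * (y ^ 2 / α + x ^ 2 / β) = y ^ 2 + x ^ 2 + (β / α) * y ^ 2 + (α / β) * x ^ 2 := by
      field_simp; ring
    rw [this]
    have h3 : 2 * (x * y) ≤ (β / α) * y ^ 2 + (α / β) * x ^ 2 := by
      have h4 : (β / α) * y ^ 2 + (α / β) * x ^ 2 - 2 * (x * y) =
          (β * y - α * x) ^ 2 / (α * β) := by
        field_simp; ring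
      have h5 : 0 ≤ (β * y - α * x) ^ 2 / (α * β) := by positivity
      linarith
    nlinarith
  have h3 : x ^ 2 / β = (n + 1) ^ 2 * x ^ 2 := by
    rw [hβ]; field_simp
  have h4 : y ^ 2 / α + x ^ 2 / β ≤ S + (n + 1) ^ 2 * x ^ 2 := by
    rw [h3]; linarith
  have h5 : 0 ≤ S + (n + 1) ^ 2 * x ^ 2 := by positivity
  calc (x + y) ^ 2 ≤ (α + β) * (y ^ 2 / α + x ^ 2 / β) := h2
    _ ≤ (α + β) * (S + (n + 1) ^ 2 * x ^ 2) := by
        apply mul_le_mul_of_nonneg_left h4 (by positivity)
    _ ≤ _ := mul_le_mul_of_nonneg_right hab h5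

lemma to_root {K : ℝ} {V : Type} {c : V → V → ℕ} (M : DiscModel K c) (u : Fin M.N → ℝ) (n : ℕ) :
    ∀ d : Fin M.N, M.depth d = n →
      (u d - u (M.root (M.own d))) ^ 2 ≤ (2 - 1 / ((n : ℝ) + 1)) *
        ∑ a ∈ anc M d, ((M.depth a : ℝ) + 1) ^ 2 * (u a - u (M.par a)) ^ 2 := by
  induction n with
  | zero =>
    intro d hd
    have h1 := (M.depth_eq_zero d).1 hd
    rw [← h1]
    simp only [sub_self]
    have : 0 ≤ ∑ a ∈ anc M d, ((M.depth a : ℝ) + 1) ^ 2 * (u a - u (M.par a)) ^ 2 :=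
      Finset.sum_nonneg fun a _ => by positivity
    norm_num
    exact this
  | succ n ih =>
    intro d hd
    have hd0 : M.depth d ≠ 0 := by omega
    have h1 : M.depth (M.par d) = n := by
      have := M.depth_par d hd0
      omega
    have h2 := ih (M.par d) h1
    rw [M.own_par] at h2
    rw [anc_insert, Finset.sum_insert (not_mem_anc_par M d hd0)]
    have h3 := cs_step (u d - u (M.par d)) (u (M.par d) - u (M.root (M.own d)))
      (∑ a ∈ anc M (M.par d), ((M.depth a : ℝ) + 1) ^ 2 * (u a - u (M.par a)) ^ 2) ((n : ℝ) + 1)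
      (by have : (0 : ℝ) ≤ n := Nat.cast_nonneg n
          linarith) h2
    have h4 : u d - u (M.par d) + (u (M.par d) - u (M.root (M.own d))) =
      u d - u (M.root (M.own d)) := by ring
    rw [h4] at h3
    rw [hd]
    push_cast
    linarith

lemma sq_le_pow (n : ℕ) : ((n : ℝ) + 1) ^ 2 ≤ 4 * 2 ^ n := by
  have key : ∀ n : ℕ, (n + 1) ^ 2 ≤ 4 * 2 ^ n := by
    intro n
    induction n with
    | zero => norm_num
    | succ n ih =>
      rcases Nat.lt_or_ge n 2 with h | h
      · interval_cases n <;> norm_num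
      · have : (n + 1 + 1) ^ 2 ≤ 2 * (n + 1) ^ 2 := by nlinarith
        calc (n + 1 + 1) ^ 2 ≤ 2 * (n + 1) ^ 2 := this
          _ ≤ 2 * (4 * 2 ^ n) := by omega
          _ = 4 * 2 ^ (n + 1) := by ring
  exact_mod_cast key n

/-- Energy in terms of discs -/
lemma energy_discs {K : ℝ} {V : Type} [Fintype V] {c : V → V → ℕ} (M : DiscModel K c) (U : V → ℝ) :
    Energy c U = ∑ d, ∑ d', (M.e d d' : ℝ) * (U (M.own d) - U (M.own d')) ^ 2 := by
  classical
  unfold Energy
  rw [finsum_eq_sum_of_fintype]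
  simp_rw [finsum_eq_sum_of_fintype]
  have h1 : ∀ x y : V, (c x y : ℝ) * (U x - U y) ^ 2 =
      ∑ d with M.own d = x, ∑ d' with M.own d' = y,
        (M.e d d' : ℝ) * (U (M.own d) - U (M.own d')) ^ 2 := by
    intro x y
    rw [← M.e_sum x y]
    push_cast
    rw [Finset.sum_mul]
    refine Finset.sum_congr (by congr) fun d hd => ?_
    rw [Finset.sum_mul]
    refine Finset.sum_congr (by congr) fun d' hd' => ?_
    rw [Finset.mem_filter] at hd hd'
    rw [hd.2, hd'.2]
  simp_rw [h1]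
  have h2 : ∀ x : V, ∑ y : V, ∑ d with M.own d = x, ∑ d' with M.own d' = y,
      (M.e d d' : ℝ) * (U (M.own d) - U (M.own d')) ^ 2 =
      ∑ d with M.own d = x, ∑ d', (M.e d d' : ℝ) * (U (M.own d) - U (M.own d')) ^ 2 := by
    intro x
    rw [Finset.sum_comm]
    refine Finset.sum_congr rfl fun d _ => ?_
    exact Finset.sum_fiberwise Finset.univ M.own _
  simp_rw [h2]
  exact Finset.sum_fiberwise Finset.univ M.own _

open Classical in
theorem st_EN1 : ST_EN1 := by
  intro K hK
  refine ⟨48 * K, by linarith, ?_⟩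
  intro V _ c M u hc
  set A : ℝ := ∑ d, ∑ d', (M.e d d' : ℝ) * (u d - u d') ^ 2 with hA
  set B : ℝ := ∑ d, (deg c (M.own d) : ℝ) * (u d - u (M.par d)) ^ 2 with hB
  have hA0 : 0 ≤ A := Finset.sum_nonneg fun d _ => Finset.sum_nonneg fun d' _ => by positivity
  have hB0 : 0 ≤ B := Finset.sum_nonneg fun d _ => by positivity
  rw [energy_discs M]
  set g : Fin M.N → ℝ := fun d => (u d - u (M.root (M.own d))) ^ 2 with hg
  -- pointwise
  have h1 : ∀ d d', (M.e d d' : ℝ) * (u (M.root (M.own d)) - u (M.root (M.own d'))) ^ 2 ≤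
      3 * ((M.e d d' : ℝ) * (u d - u d') ^ 2) + (3 * ((M.e d d' : ℝ) * g d) +
        3 * ((M.e d d' : ℝ) * g d')) := by
    intro d d'
    have he : (0 : ℝ) ≤ M.e d d' := Nat.cast_nonneg _
    have h2 : (u (M.root (M.own d)) - u (M.root (M.own d'))) ^ 2 ≤
        3 * (u d - u d') ^ 2 + 3 * g d + 3 * g d' := by
      simp only [hg]
      set p := u (M.root (M.own d))
      set q := u (M.root (M.own d'))
      nlinarith [sq_nonneg ((u d - u d') + (u d - p)), sq_nonneg ((u d - u d') - (u d' - q)),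
        sq_nonneg ((u d - p) + (u d' - q))]
    nlinarith [mul_le_mul_of_nonneg_left h2 he]
  have h2 : ∑ d, ∑ d', (M.e d d' : ℝ) * (u (M.root (M.own d)) - u (M.root (M.own d'))) ^ 2 ≤
      3 * A + 6 * ∑ d, ∑ d', (M.e d d' : ℝ) * g d := by
    have h3 : ∑ d, ∑ d', (M.e d d' : ℝ) * g d' = ∑ d, ∑ d', (M.e d d' : ℝ) * g d := by
      rw [Finset.sum_comm]
      refine Finset.sum_congr rfl fun d _ => Finset.sum_congr rfl fun d' _ => ?_
      rw [M.e_symm]
    calc ∑ d, ∑ d', (M.e d d' : ℝ) * (u (M.root (M.own d)) - u (M.root (M.own d'))) ^ 2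
        ≤ ∑ d, ∑ d', (3 * ((M.e d d' : ℝ) * (u d - u d') ^ 2) + (3 * ((M.e d d' : ℝ) * g d) +
        3 * ((M.e d d' : ℝ) * g d'))) :=
          Finset.sum_le_sum fun d _ => Finset.sum_le_sum fun d' _ => h1 d d'
      _ = 3 * A + (3 * (∑ d, ∑ d', (M.e d d' : ℝ) * g d) +
            3 * (∑ d, ∑ d', (M.e d d' : ℝ) * g d')) := by
          simp only [Finset.sum_add_distrib, ← Finset.mul_sum, hA]
      _ = _ := by rw [h3]; ring
  -- the tree part
  set F : Fin M.N → ℝ := fun a => ((M.depth a : ℝ) + 1) ^ 2 * (u a - u (M.par a)) ^ 2 with hF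
  have hg1 : ∀ d, g d ≤ 2 * ∑ a ∈ anc M d, F a := by
    intro d
    have h3 := to_root M u (M.depth d) d rfl
    have h4 : 0 ≤ ∑ a ∈ anc M d, F a := Finset.sum_nonneg fun a _ => by
      simp only [hF]; positivity
    refine h3.trans ?_
    apply mul_le_mul_of_nonneg_right _ h4
    have : (0 : ℝ) ≤ 1 / ((M.depth d : ℝ) + 1) := by positivity
    linarith
  have h3 : ∑ d, ∑ d', (M.e d d' : ℝ) * g d ≤ 8 * K * B := by
    calc ∑ d, ∑ d', (M.e d d' : ℝ) * g d
        ≤ ∑ d, ∑ d', (M.e d d' : ℝ) * (2 * ∑ a ∈ anc M d, F a) :=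
          Finset.sum_le_sum fun d _ => Finset.sum_le_sum fun d' _ =>
            mul_le_mul_of_nonneg_left (hg1 d) (Nat.cast_nonneg _)
      _ = 2 * ∑ d, ∑ a ∈ anc M d, (∑ d', (M.e d d' : ℝ)) * F a := by
          rw [Finset.mul_sum]
          refine Finset.sum_congr rfl fun d _ => ?_
          rw [← Finset.sum_mul, ← Finset.mul_sum]
          ring
      _ = 2 * ∑ a, ∑ d with (∃ i, M.par^[i] d = a), (∑ d', (M.e d d' : ℝ)) * F a := by
          congr 1
          apply Finset.sum_comm'
          intro d a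
          simp [anc]
      _ ≤ 2 * ∑ a, 4 * K * ((deg c (M.own a) : ℝ) * (u a - u (M.par a)) ^ 2) := by
          apply mul_le_mul_of_nonneg_left _ (by norm_num)
          refine Finset.sum_le_sum fun a _ => ?_
          rw [← Finset.sum_mul]
          have hb := M.balance a
          push_cast at hb
          set E : ℝ := ∑ d with (∃ i, M.par^[i] d = a), ∑ d', (M.e d d' : ℝ) with hE
          have hE0 : 0 ≤ E := Finset.sum_nonneg fun d _ => Finset.sum_nonneg fun d' _ => by positivity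
          have h5 := sq_le_pow (M.depth a)
          have h6 : E * ((M.depth a : ℝ) + 1) ^ 2 ≤ 4 * (K * deg c (M.own a)) := by
            calc E * ((M.depth a : ℝ) + 1) ^ 2 ≤ E * (4 * 2 ^ M.depth a) :=
                  mul_le_mul_of_nonneg_left h5 hE0
              _ = 4 * (E * 2 ^ M.depth a) := by ring
              _ ≤ _ := by
                apply mul_le_mul_of_nonneg_left _ (by norm_num)
                convert hb using 2
          simp only [hF]
          calc E * (((M.depth a : ℝ) + 1) ^ 2 * (u a - u (M.par a)) ^ 2)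
              = (E * ((M.depth a : ℝ) + 1) ^ 2) * (u a - u (M.par a)) ^ 2 := by ring
            _ ≤ (4 * (K * deg c (M.own a))) * (u a - u (M.par a)) ^ 2 :=
                mul_le_mul_of_nonneg_right h6 (sq_nonneg _)
            _ = _ := by ring
      _ = 8 * K * B := by
          rw [← Finset.mul_sum]; ring
  calc _ ≤ 3 * A + 6 * ∑ d, ∑ d', (M.e d d' : ℝ) * g d := h2
    _ ≤ 3 * A + 6 * (8 * K * B) := by linarith
    _ ≤ 48 * K * (A + B) := by nlinarith

end

end SPR
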